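import Pool.Agent.helper37.MA.Spec

/-! Row GEO of project MA (MP_7e34bc_co). -/

set_option autoImplicit false

namespace Pool.Agent.helper37.MA

open Finset Pool.Agent.NK Pool.Agent.helper37.NF

theorem GEO_step (n k m : ℕ) (hn : n = 2 * k + m) (k' : ℕ) (hk : k' ≤ k) :
    (m + 1) * ∑ t ∈ range (k' + 1), n.choose t ≤ (k + m + 1) * n.choose k' := by
  induction k' with
  | zero =>
    simp
  | succ j ih =>
    have h1 := ih (by omega)
    have h2 : n.choose (j + 1) * (j + 1) = n.choose j * (n - j) := Nat.choose_succ_right_eq n j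
    have h3 : (k + m + 1) * n.choose j ≤ k * n.choose (j + 1) := by
      calc (k + m + 1) * n.choose j ≤ (n - j) * n.choose j := Nat.mul_le_mul_right _ (by omega)
        _ = n.choose (j + 1) * (j + 1) := by rw [h2, Nat.mul_comm]
        _ ≤ n.choose (j + 1) * k := Nat.mul_le_mul_left _ hk
        _ = k * n.choose (j + 1) := Nat.mul_comm _ _
    rw [Finset.sum_range_succ, Nat.mul_add]
    have h4 : (k + m + 1) * n.choose (j + 1) =
        k * n.choose (j + 1) + (m + 1) * n.choose (j + 1) := by ring
    omega

theorem GEO : GEO_stmt := by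
  intro n k h
  obtain ⟨m, hm⟩ := Nat.exists_eq_add_of_le h
  have e1 : n - 2 * k + 1 = m + 1 := by omega
  have e2 : n - k + 1 = k + m + 1 := by omega
  rw [e1, e2]
  exact GEO_step n k m hm k le_rfl

end Pool.Agent.helper37.MA
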